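import Mathlib

namespace Pool.Agent.Results.MP_58bd73_nt.Counterexample

open PowerSeries Filter Topology

/-- The Prouhet-Thue-Morse sequence `(-1)^(s₂(n))`, `s₂` the binary digit sum. -/
def tm (n : ℕ) : ℤ := (-1) ^ (Nat.digits 2 n).sum

/-- `t m n`: the `m`-fold Cauchy convolution of the Prouhet-Thue-Morse sequence, i.e. the `n`-th
coefficient of the `m`-th power of its generating series. -/
noncomputable def t (m n : ℕ) : ℤ := coeff n ((PowerSeries.mk tm) ^ m)

/-- The exceptional set `A_(m,j) = {n : sgn t_m(3n+j) ≠ (-1)^j}`. -/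
def A (m j : ℕ) : Set ℕ := {n | Int.sign (t m (3 * n + j)) ≠ (-1) ^ j}

open Classical in
/-- Asymptotic density zero. -/
def DensityZero (S : Set ℕ) : Prop :=
  Tendsto (fun N : ℕ => (((Finset.range N).filter (· ∈ S)).card : ℝ) / N) atTop (𝓝 0)

lemma tm_even (n : ℕ) : tm (2 * n) = tm n := by
  rcases Nat.eq_zero_or_pos n with rfl | hn
  · rfl
  · unfold tm
    have := Nat.digits_add_two_add_one 0 (2 * n - 1)
    rw [show 2 * n - 1 + 1 = 2 * n by omega] at this
    simp only [zero_add] at this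
    rw [this]
    simp

lemma tm_odd (n : ℕ) : tm (2 * n + 1) = - tm n := by
  unfold tm
  have := Nat.digits_add_two_add_one 0 (2 * n)
  simp only [zero_add] at this
  rw [this, show (2 * n + 1) % 2 = 1 by omega, show (2 * n + 1) / 2 = n by omega]
  simp [pow_add]

lemma T_eq : (PowerSeries.mk tm) = (1 - X) * expand 2 (by norm_num) (PowerSeries.mk tm) := by
  ext n
  rw [sub_mul, one_mul, map_sub]
  rcases Nat.even_or_odd' n with ⟨k, rfl | rfl⟩
  · rw [coeff_expand_mul, coeff_mk, coeff_mk, tm_even]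
    rcases k with _ | k
    · simp
    · rw [show 2 * (k + 1) = (2 * k + 1) + 1 by ring, coeff_succ_X_mul,
        coeff_expand_of_not_dvd _ _ _ (by omega)]
      simp
  · rw [coeff_succ_X_mul, coeff_expand_mul, coeff_expand_of_not_dvd _ _ _ (by omega), coeff_mk,
      coeff_mk, tm_odd]
    simp

lemma T2_eq : (PowerSeries.mk tm) ^ 2 =
    expand 2 (by norm_num) ((PowerSeries.mk tm) ^ 2)
      - 2 * (X * expand 2 (by norm_num) ((PowerSeries.mk tm) ^ 2))
      + X * (X * expand 2 (by norm_num) ((PowerSeries.mk tm) ^ 2)) := by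
  conv_lhs => rw [T_eq]
  rw [map_pow]
  ring

lemma coeff_two_mul' (n : ℕ) (f : ℤ⟦X⟧) : coeff n (2 * f) = 2 * coeff n f := by
  rw [two_mul, map_add, two_mul]

lemma t_odd (n : ℕ) : t 2 (2 * n + 1) = -2 * t 2 n := by
  unfold t
  conv_lhs => rw [T2_eq]
  rw [map_add, map_sub, coeff_two_mul', coeff_succ_X_mul, coeff_succ_X_mul, coeff_expand_mul,
    coeff_expand_of_not_dvd _ _ _ (by omega)]
  rcases n with _ | n
  · simp
  · rw [show 2 * (n + 1) = (2 * n + 1) + 1 by ring, coeff_succ_X_mul,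
      coeff_expand_of_not_dvd _ _ _ (by omega)]
    ring

lemma t_even (n : ℕ) : t 2 (2 * n + 2) = t 2 (n + 1) + t 2 n := by
  unfold t
  conv_lhs => rw [T2_eq]
  rw [map_add, map_sub, coeff_two_mul', show 2 * n + 2 = (2 * n + 1) + 1 by ring, coeff_succ_X_mul,
    coeff_succ_X_mul, coeff_succ_X_mul, coeff_expand_mul,
    coeff_expand_of_not_dvd _ _ _ (show ¬ 2 ∣ 2 * n + 1 by omega),
    show 2 * n + 1 + 1 = 2 * (n + 1) by ring, coeff_expand_mul]
  ring

lemma key (N : ℕ) :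
    20 * t 2 (32 * N + 93) + 24 * t 2 (64 * N + 144) + t 2 (64 * N + 159) = 0 := by
  have h2_5 : t 2 (2 * N + 5) = -2 * t 2 (1 * N + 2) := by
    rw [show 2 * N + 5 = 2 * (1 * N + 2) + 1 by ring, t_odd]
  have h4_11 : t 2 (4 * N + 11) = -2 * t 2 (2 * N + 5) := by
    rw [show 4 * N + 11 = 2 * (2 * N + 5) + 1 by ring, t_odd]
  have h8_23 : t 2 (8 * N + 23) = -2 * t 2 (4 * N + 11) := by
    rw [show 8 * N + 23 = 2 * (4 * N + 11) + 1 by ring, t_odd]
  have h2_4 : t 2 (2 * N + 4) = t 2 (1 * N + 2) + t 2 (1 * N + 1) := by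
    rw [show 2 * N + 4 = 2 * (1 * N + 1) + 2 by ring, t_even]
  have h4_10 : t 2 (4 * N + 10) = t 2 (2 * N + 5) + t 2 (2 * N + 4) := by
    rw [show 4 * N + 10 = 2 * (2 * N + 4) + 2 by ring, t_even]
  have h8_22 : t 2 (8 * N + 22) = t 2 (4 * N + 11) + t 2 (4 * N + 10) := by
    rw [show 8 * N + 22 = 2 * (4 * N + 10) + 2 by ring, t_even]
  have h16_46 : t 2 (16 * N + 46) = t 2 (8 * N + 23) + t 2 (8 * N + 22) := by
    rw [show 16 * N + 46 = 2 * (8 * N + 22) + 2 by ring, t_even]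
  have h32_93 : t 2 (32 * N + 93) = -2 * t 2 (16 * N + 46) := by
    rw [show 32 * N + 93 = 2 * (16 * N + 46) + 1 by ring, t_odd]
  have h4_9 : t 2 (4 * N + 9) = -2 * t 2 (2 * N + 4) := by
    rw [show 4 * N + 9 = 2 * (2 * N + 4) + 1 by ring, t_odd]
  have h2_3 : t 2 (2 * N + 3) = -2 * t 2 (1 * N + 1) := by
    rw [show 2 * N + 3 = 2 * (1 * N + 1) + 1 by ring, t_odd]
  have h4_8 : t 2 (4 * N + 8) = t 2 (2 * N + 4) + t 2 (2 * N + 3) := by
    rw [show 4 * N + 8 = 2 * (2 * N + 3) + 2 by ring, t_even]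
  have h8_18 : t 2 (8 * N + 18) = t 2 (4 * N + 9) + t 2 (4 * N + 8) := by
    rw [show 8 * N + 18 = 2 * (4 * N + 8) + 2 by ring, t_even]
  have h8_17 : t 2 (8 * N + 17) = -2 * t 2 (4 * N + 8) := by
    rw [show 8 * N + 17 = 2 * (4 * N + 8) + 1 by ring, t_odd]
  have h16_36 : t 2 (16 * N + 36) = t 2 (8 * N + 18) + t 2 (8 * N + 17) := by
    rw [show 16 * N + 36 = 2 * (8 * N + 17) + 2 by ring, t_even]
  have h16_35 : t 2 (16 * N + 35) = -2 * t 2 (8 * N + 17) := by
    rw [show 16 * N + 35 = 2 * (8 * N + 17) + 1 by ring, t_odd]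
  have h32_72 : t 2 (32 * N + 72) = t 2 (16 * N + 36) + t 2 (16 * N + 35) := by
    rw [show 32 * N + 72 = 2 * (16 * N + 35) + 2 by ring, t_even]
  have h32_71 : t 2 (32 * N + 71) = -2 * t 2 (16 * N + 35) := by
    rw [show 32 * N + 71 = 2 * (16 * N + 35) + 1 by ring, t_odd]
  have h64_144 : t 2 (64 * N + 144) = t 2 (32 * N + 72) + t 2 (32 * N + 71) := by
    rw [show 64 * N + 144 = 2 * (32 * N + 71) + 2 by ring, t_even]
  have h8_19 : t 2 (8 * N + 19) = -2 * t 2 (4 * N + 9) := by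
    rw [show 8 * N + 19 = 2 * (4 * N + 9) + 1 by ring, t_odd]
  have h16_39 : t 2 (16 * N + 39) = -2 * t 2 (8 * N + 19) := by
    rw [show 16 * N + 39 = 2 * (8 * N + 19) + 1 by ring, t_odd]
  have h32_79 : t 2 (32 * N + 79) = -2 * t 2 (16 * N + 39) := by
    rw [show 32 * N + 79 = 2 * (16 * N + 39) + 1 by ring, t_odd]
  have h64_159 : t 2 (64 * N + 159) = -2 * t 2 (32 * N + 79) := by
    rw [show 64 * N + 159 = 2 * (32 * N + 79) + 1 by ring, t_odd]
  linarith

lemma mem_A {n : ℕ} (h : t 2 (3 * n) ≤ 0) : n ∈ A 2 0 := by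
  simp only [A, Set.mem_setOf_eq, add_zero, pow_zero]
  intro h1
  have := Int.sign_eq_one_iff_pos.1 h1
  omega

lemma ex (M : ℕ) : ∃ n ∈ A 2 0, n = 32 * M + 31 ∨ n = 64 * M + 48 ∨ n = 64 * M + 53 := by
  have h := key (3 * M)
  by_cases h1 : t 2 (3 * (32 * M + 31)) ≤ 0
  · exact ⟨_, mem_A h1, Or.inl rfl⟩
  by_cases h2 : t 2 (3 * (64 * M + 48)) ≤ 0
  · exact ⟨_, mem_A h2, Or.inr (Or.inl rfl)⟩
  refine ⟨_, mem_A ?_, Or.inr (Or.inr rfl)⟩
  rw [show 3 * (32 * M + 31) = 32 * (3 * M) + 93 by ring] at h1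
  rw [show 3 * (64 * M + 48) = 64 * (3 * M) + 144 by ring] at h2
  rw [show 3 * (64 * M + 53) = 64 * (3 * M) + 159 by ring]
  omega

open Classical in
lemma count (K : ℕ) : K ≤ ((Finset.range (64 * K)).filter (· ∈ A 2 0)).card := by
  choose f hf hf' using ex
  have : (Finset.range K).card ≤ ((Finset.range (64 * K)).filter (· ∈ A 2 0)).card := by
    apply Finset.card_le_card_of_injOn f
    · intro M hM
      have hM' : M < K := by simpa using hM
      have := hf' M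
      simp only [Finset.coe_filter, Finset.mem_range, Set.mem_setOf_eq]
      exact ⟨by omega, hf M⟩
    · intro a _ b _ hab
      have h1 := hf' a
      have h2 := hf' b
      omega
  simpa using this

lemma not_dz : ¬ DensityZero (A 2 0) := by
  intro h0
  unfold DensityZero at h0
  have h1 : Tendsto (fun K : ℕ => 64 * (K + 1)) atTop atTop :=
    tendsto_atTop_mono (fun K => by show K ≤ 64 * (K + 1); omega) tendsto_id
  have h2 := (h0.comp h1).eventually (gt_mem_nhds (show (0 : ℝ) < 1 / 64 by norm_num))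
  obtain ⟨K, hK⟩ := h2.exists
  simp only [Function.comp] at hK
  have h3 := count (K + 1)
  have h4 : (0 : ℝ) < ((64 * (K + 1) : ℕ) : ℝ) := by positivity
  rw [div_lt_iff₀ h4] at hK
  have h5 : ((K + 1 : ℕ) : ℝ) ≤ _ := Nat.cast_le.2 h3
  push_cast at hK h5
  linarith

/-- The conjecture fails: `A_(2,0)` does not have density zero. -/
theorem result : ¬ DensityZero (A 2 0) ∧
    ¬ ∀ m : ℕ, 2 ≤ m → ∀ j ∈ ({0, 1} : Set ℕ), (A m j).Infinite ∧ DensityZero (A m j) :=
  ⟨not_dz, fun h => not_dz (h 2 le_rfl 0 (by simp)).2⟩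

end Pool.Agent.Results.MP_58bd73_nt.Counterexample
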